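import Pool.Agent.H.MP_f9d380_an.Ex

namespace Pool.Agent.H.MP_e07177_an

open Finset Filter Topology Pool.Agent.H.MP_f9d380_an

theorem bound {E : Type} [NormedAddCommGroup E] [NormedSpace ℝ E] [CompleteSpace E] (x : ℕ → E)
    (f : ℕ → E →L[ℝ] ℝ) (bi : ∀ i j, f i (x j) = if i = j then 1 else 0) (p : ℕ → ℕ)
    (hp : StrictMono p) (h : ∀ v ∈ (Submodule.span ℝ (Set.range x)).topologicalClosure,
      ∃ t : ℕ → ℝ, Tendsto (fun k => ∑ i ∈ range (p k), t i • x i) atTop (𝓝 v)) :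
    ∃ K, ∀ i, ∃ N, ∀ j ≥ N, ‖x i‖ ≤ K * ‖x i - x j‖ := by
  let F := (Submodule.span ℝ (Set.range x)).topologicalClosure
  obtain ⟨K, hK⟩ := banach_steinhaus (E := F)
    (g := fun k => (∑ i ∈ range (p k), (f i).smulRight (x i)) ∘L F.subtypeL) fun v => by
      obtain ⟨t, ht⟩ := h v.1 v.2
      have e : ∀ i, t i = f i v.1 := fun i =>
        tendsto_nhds_unique (tendsto_const_nhds.congr' (by
          filter_upwards [eventually_gt_atTop i] with k hk
          have := hk.trans_le (hp.le_apply (x := k))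
          simp [map_sum, bi, this])) (((f i).continuous.tendsto _).comp ht)
      obtain ⟨C, hC⟩ := ht.norm.bddAbove_range
      refine ⟨C, fun k => ?_⟩
      rw [ContinuousLinearMap.comp_apply, _root_.sum_apply]
      simp only [e] at hC
      exact hC ⟨k, rfl⟩
  refine ⟨K, fun i => ⟨p (i + 1), fun j hj => ?_⟩⟩
  have m : ∀ n, x n ∈ F := fun n =>
    Submodule.le_topologicalClosure _ (Submodule.subset_span ⟨n, rfl⟩)
  have h1 := ContinuousLinearMap.le_of_opNorm_le _ (hK (i + 1)) ⟨x i - x j, F.sub_mem (m i) (m j)⟩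
  rw [ContinuousLinearMap.comp_apply, _root_.sum_apply] at h1
  have h2 : i < p (i + 1) := hp.le_apply (x := i + 1)
  simpa [bi, sub_smul, h2, not_lt.2 hj] using h1

def κ (i : ℕ) : ℕ := (Nat.unpair i).1

noncomputable def y (i : ℕ) : L1 × L1 := (u (κ i), ((κ i : ℝ) + 1)⁻¹ • u i)

noncomputable def F : Submodule ℝ (L1 × L1) := (Submodule.span ℝ (Set.range y)).topologicalClosure

def E : Type := F

noncomputable instance : NormedAddCommGroup E := inferInstanceAs (NormedAddCommGroup F)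
noncomputable instance : NormedSpace ℝ E := inferInstanceAs (NormedSpace ℝ F)
instance : CompleteSpace E :=
  inferInstanceAs (CompleteSpace (Submodule.span ℝ (Set.range y)).topologicalClosure)

noncomputable def x (i : ℕ) : E :=
  ⟨y i, Submodule.le_topologicalClosure _ (Submodule.subset_span ⟨i, rfl⟩)⟩

noncomputable def f (i : ℕ) : E →L[ℝ] ℝ :=
  ((κ i : ℝ) + 1) • (lp.evalCLM ℝ (fun _ : ℕ => ℝ) 1 i ∘L ContinuousLinearMap.snd ℝ L1 L1 ∘L
    F.subtypeL)

theorem f_app (i : ℕ) (v : E) : f i v = ((κ i : ℝ) + 1) * v.1.2 i := rfl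

theorem bi (i j : ℕ) : f i (x j) = if i = j then 1 else 0 := by
  have : f i (x j) = ((κ i : ℝ) + 1) * (((κ j : ℝ) + 1)⁻¹ * u j i) := rfl
  rw [this, u_app]
  split_ifs with h
  · subst h; field_simp
  · simp

theorem dense_x : Dense (Submodule.span ℝ (Set.range x) : Set E) := by
  intro v
  refine (Topology.IsInducing.subtypeVal.closure_eq_preimage_closure_image _).ge ?_
  have : Subtype.val '' (Submodule.span ℝ (Set.range x) : Set E) =
      (Submodule.span ℝ (Set.range y) : Set (L1 × L1)) := by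
    have h := Submodule.map_span F.subtype (Set.range x)
    rw [← Set.range_comp] at h
    exact congrArg (fun s : Submodule ℝ (L1 × L1) => (s : Set (L1 × L1))) h
  exact (congrArg (fun s : Set (L1 × L1) => v.1 ∈ closure s) this).mpr v.2

theorem key (s : ℕ) (v : L1 × L1) (hv : v ∈ F) : |v.1 s| ≤ ((s : ℝ) + 1) * ‖v.2‖ := by
  refine closure_minimal (t := {v : L1 × L1 | |v.1 s| ≤ ((s : ℝ) + 1) * ‖v.2‖}) (fun w hw => ?_)
    (isClosed_le (((lp.evalCLM ℝ (fun _ : ℕ => ℝ) 1 s).continuous.comp continuous_fst).abs)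
      (by fun_prop)) hv
  obtain ⟨c, rfl⟩ := Finsupp.mem_span_range_iff_exists_finsupp.1 hw
  have e1 : (c.sum fun i a => a • y i).1 s = ∑ i ∈ c.support, if s = κ i then c i else 0 := by
    rw [Finsupp.sum, Prod.fst_sum, lp.coeFn_sum, Finset.sum_apply]
    exact sum_congr rfl fun i _ => by simp [y, u_app]
  have e2 : (c.sum fun i a => a • y i).2 = ∑ i ∈ c.support, (c i * ((κ i : ℝ) + 1)⁻¹) • u i := by
    rw [Finsupp.sum, Prod.snd_sum]
    exact sum_congr rfl fun i _ => by simp [y, smul_smul]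
  have e3 := lp.norm_sum_single (p := 1) (E := fun _ : ℕ => ℝ) (by simp)
    (fun i => c i * ((κ i : ℝ) + 1)⁻¹) c.support
  simp only [ENNReal.toReal_one, Real.rpow_one, ← smul_u] at e3
  rw [Set.mem_ofPred_eq, e1, e2, e3, mul_sum]
  refine (abs_sum_le_sum_abs _ _).trans (sum_le_sum fun i _ => ?_)
  split_ifs with h
  · rw [← h, Real.norm_eq_abs, abs_mul, abs_of_pos (by positivity : 0 < ((s : ℝ) + 1)⁻¹)]
    exact le_of_eq (by field_simp)
  · rw [abs_zero]; positivity

theorem total (v : E) (h : ∀ n, f n v = 0) : v = 0 := by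
  have h2 : v.1.2 = 0 := lp.ext (funext fun n => by
    have := h n
    rw [f_app] at this
    exact (mul_eq_zero.1 this).resolve_left (by positivity))
  refine Subtype.ext (Prod.ext (lp.ext (funext fun s => ?_)) h2)
  have := key s v.1 v.2
  rw [h2, norm_zero, mul_zero] at this
  exact abs_nonpos_iff.1 this

theorem one_le (i : ℕ) : 1 ≤ ‖x i‖ := (norm_u (κ i)).ge.trans (norm_fst_le (y i))

theorem close (i j : ℕ) (h : κ i = κ j) : ‖x i - x j‖ ≤ 2 * ((κ i : ℝ) + 1)⁻¹ := by
  change max ‖u (κ i) - u (κ j)‖ ‖((κ i : ℝ) + 1)⁻¹ • u i - ((κ j : ℝ) + 1)⁻¹ • u j‖ ≤ _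
  have := norm_sub_le (u i) (u j)
  rw [norm_u, norm_u] at this
  rw [← h, sub_self, norm_zero, max_eq_right (norm_nonneg _), ← smul_sub, norm_smul,
    Real.norm_of_nonneg (by positivity), mul_comm]
  exact mul_le_mul_of_nonneg_right (by linarith) (by positivity)

theorem fin (c : ℕ → ℕ) (K : ℝ) (hK : ∀ i, ∃ N, ∀ j ≥ N, ‖x (c i)‖ ≤ K * ‖x (c i) - x (c j)‖)
    (s : ℕ) (hs : 2 * |K| < s) : (c '' {k | κ (c k) = s}).Finite := by
  refine Set.Finite.image _ ?_
  rcases Set.eq_empty_or_nonempty {k | κ (c k) = s} with h | ⟨i, hi⟩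
  · simp [h]
  obtain ⟨N, hN⟩ := hK i
  refine (Set.finite_lt_nat N).subset fun j hj => (not_le (a := N)).1 fun h => ?_
  have h1 := (one_le _).trans (hN j h)
  have h2 := close _ _ (hi.trans hj.symm)
  rw [show κ (c i) = s from hi] at h2
  have h3 := mul_le_mul (le_abs_self K) h2 (norm_nonneg _) (abs_nonneg K)
  have h4 : ((s : ℝ) + 1) * ((s : ℝ) + 1)⁻¹ = 1 := by field_simp
  nlinarith [show 0 < ((s : ℝ) + 1)⁻¹ by positivity]

end Pool.Agent.H.MP_e07177_an
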